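import Mathlib

namespace Pool.Agent.Results.MP_55c50e_an.Counter

open Filter Topology Finset

/-- membership in `ℓ_p`. -/
def Mem (p : ℝ) (x : ℕ → ℝ) : Prop := Summable fun j => |x j| ^ p

/-- order convergence in `ℓ_p`: coordinatewise convergence and domination in `ℓ_p`. -/
def OConv (p : ℝ) (d : ℕ → ℕ → ℝ) (x : ℕ → ℝ) : Prop :=
  (∀ j, Tendsto (fun k => d k j) atTop (𝓝 (x j))) ∧
    ∃ y, Mem p y ∧ (∀ j, 0 ≤ y j) ∧ ∀ k j, |d k j| ≤ y j

def BuoCauchy (p : ℝ) (x : ℕ → ℕ → ℝ) : Prop :=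
  ∀ n : ℕ → ℕ, StrictMono n → OConv p (fun k => x (n (k + 1)) - x (n k)) 0

def cnt (B m n t : ℕ) : ℕ := #{s ∈ range m | n / B ^ s = t / B ^ s}

lemma dmono {B n t s s' : ℕ} (h : n / B ^ s = t / B ^ s) (hs : s ≤ s') :
    n / B ^ s' = t / B ^ s' := by
  obtain ⟨c, rfl⟩ := Nat.exists_eq_add_of_le hs
  rw [pow_add, ← Nat.div_div_eq_div_mul, ← Nat.div_div_eq_div_mul, h]

lemma cnt_le (B m n t : ℕ) : cnt B m n t ≤ m := (card_filter_le _ _).trans (card_range m).le

lemma cnt_zero {B m n t : ℕ} (ht : t ∈ Ico (B ^ m) (2 * B ^ m)) (hn : n ∉ Ico (B ^ m) (2 * B ^ m)) :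
    cnt B m n t = 0 := by
  rw [mem_Ico] at ht hn
  refine card_eq_zero.2 (filter_eq_empty_iff.2 fun s hs h => hn ?_)
  have h1 := dmono h (mem_range.1 hs).le
  rw [Nat.div_eq_of_lt_le (k := 1) (m := t) (by omega) (by omega)] at h1
  have hp : 0 < B ^ m := by omega
  have := (Nat.div_eq_iff hp).1 h1
  omega

def Bad (B m : ℕ) (a b : ℕ → ℕ) (t : ℕ) : Prop :=
  ∃ s < m, ∃ k, a k / B ^ s = t / B ^ s ∧ b k / B ^ (s + 1) ≠ t / B ^ (s + 1)

lemma jump {B m t : ℕ} {a b : ℕ → ℕ} (h : ¬ Bad B m a b t) (k : ℕ) :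
    cnt B m (a k) t ≤ cnt B m (b k) t + 1 := by
  refine le_trans (card_le_card_of_injOn (· + 1) ?_ (by simp [Set.InjOn])) (card_insert_le m _)
  intro s hs
  simp only [coe_filter, mem_range, Set.mem_setOf_eq, coe_insert, Set.mem_insert_iff] at hs ⊢
  by_contra hh
  exact h ⟨s, hs.1, k, hs.2, fun e => hh (by omega)⟩

open Classical in
lemma bad_card {B m : ℕ} (hB : 0 < B) (a b : ℕ → ℕ)
    (hu : ∀ c k l, a k / c = a l / c → b k / c ≠ a k / c → b l / c ≠ a l / c → k = l) :
    #{t ∈ Ico (B ^ m) (2 * B ^ m) | Bad B m a b t} * B ≤ m * (2 * B ^ m) := by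
  have h1 : {t ∈ Ico (B ^ m) (2 * B ^ m) | Bad B m a b t} ⊆ (range m).biUnion fun s =>
      {t ∈ range (2 * B ^ m) | ∃ k, a k / B ^ s = t / B ^ s ∧ b k / B ^ (s + 1) ≠ t / B ^ (s + 1)} := by
    intro t ht
    simp only [mem_filter, mem_Ico, mem_biUnion, mem_range] at ht ⊢
    obtain ⟨h, s, hs, h'⟩ := ht
    exact ⟨s, hs, h.2, h'⟩
  refine (Nat.mul_le_mul_right _ ((card_le_card h1).trans card_biUnion_le)).trans ?_
  rw [sum_mul]
  refine (sum_le_card_nsmul _ _ (2 * B ^ m) fun s hs => ?_).trans (by simp)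
  obtain ⟨c, rfl⟩ := Nat.exists_eq_add_of_lt (mem_range.1 hs)
  refine (Nat.mul_le_mul_right _ (card_le_card_of_injOn (t := range (2 * B ^ c) ×ˢ range (B ^ s))
    (fun t => (t / B ^ (s + 1), t % B ^ s)) ?_ ?_)).trans (by simp; ring_nf; rfl)
  · intro t ht
    simp only [coe_filter, mem_range, Set.mem_setOf_eq, coe_product, Set.mem_prod, coe_range,
      Set.mem_Iio] at ht ⊢
    exact ⟨(Nat.div_lt_iff_lt_mul (by positivity)).2 (by convert ht.1 using 1; ring),
      Nat.mod_lt _ (by positivity)⟩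
  · rintro t ht t' ht' e
    simp only [coe_filter, Set.mem_setOf_eq, Prod.mk.injEq] at ht ht' e
    obtain ⟨-, k, h1, h2⟩ := ht
    obtain ⟨-, l, h3, h4⟩ := ht'
    have e1 := dmono h1 s.le_succ
    have e2 := dmono h3 s.le_succ
    have := hu (B ^ (s + 1)) k l (by rw [e1, e2, e.1]) (by rwa [e1]) (by rwa [e2])
    subst this
    rw [← Nat.div_add_mod t (B ^ s), ← Nat.div_add_mod t' (B ^ s), e.2, ← h1, ← h3]

def M (i : ℕ) : ℕ := (i + 2) ^ 2
def N (i : ℕ) : ℕ := (M i ^ 2) ^ M i
def I (i : ℕ) : Finset ℕ := Ico (N i) (2 * N i)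
noncomputable def h (p : ℝ) (i : ℕ) : ℝ := (N i : ℝ)⁻¹ ^ p⁻¹
noncomputable def X (p : ℝ) (n : ℕ) (q : ℕ × ℕ) : ℝ :=
  if q.2 ∈ I q.1 then h p q.1 / M q.1 * cnt (M q.1 ^ 2) (M q.1) n q.2 else 0

lemma M_b (i : ℕ) : i + 1 < M i := by unfold M; nlinarith
lemma N_b (i : ℕ) : i < N i := by
  have := M_b i
  have : M i < (M i ^ 2) ^ M i := Nat.lt_pow_self (by nlinarith)
  unfold N; omega
lemma h0 (p : ℝ) (i : ℕ) : 0 ≤ h p i := by unfold h; positivity
lemma hp {p : ℝ} (hp : 1 ≤ p) (i : ℕ) : h p i ^ p = (N i : ℝ)⁻¹ :=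
  Real.rpow_inv_rpow (by positivity) (by linarith)

lemma X0 (p : ℝ) {n : ℕ} {q : ℕ × ℕ} (hn : n ∉ I q.1) : X p n q = 0 := by
  unfold X; split_ifs with hq
  · rw [cnt_zero hq hn]; simp
  · rfl

theorem result (p : ℝ) (h1 : 1 < p) : ∃ x : ℕ → ℕ → ℝ, (∀ n, Mem p (x n)) ∧ BuoCauchy p x ∧
    ∀ l, ¬ OConv p x l := by
  classical
  have p0 : p ≠ 0 := by linarith
  have sm : ∀ f : ℕ × ℕ → ℝ, Mem p (fun j => f j.unpair) ↔ Summable fun q => |f q| ^ p :=
    fun f => Nat.pairEquiv.symm.summable_iff (f := fun q => |f q| ^ p)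
  refine ⟨fun n j => X p n j.unpair, fun n => (sm _).2 (summable_of_ne_finset_zero
    (s := range n ×ˢ range (2 * n)) fun q hq => ?_), fun n hn => ⟨fun j => ?_, ?_⟩, ?_⟩
  · by_cases hI : n ∈ I q.1
    · rw [X, if_neg, abs_zero, Real.zero_rpow p0]
      have := N_b q.1
      simp only [I, mem_Ico, mem_product, mem_range] at hq hI ⊢; omega
    · rw [X0 p hI, abs_zero, Real.zero_rpow p0]
  · refine tendsto_const_nhds.congr' ?_
    filter_upwards [eventually_ge_atTop (2 * N j.unpair.1)] with k hk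
    have a1 := hn.le_apply (x := k)
    have a2 := hn.le_apply (x := k + 1)
    rw [Pi.sub_apply, X0, X0] <;> simp [I]; all_goals omega
  · let b1 := fun i t => Bad (M i ^ 2) (M i) n (fun k => n (k + 1)) t
    let b2 := fun i t => Bad (M i ^ 2) (M i) (fun k => n (k + 1)) n t
    let Y : ℕ × ℕ → ℝ := fun q => if q.2 ∈ I q.1 then
      (if b1 q.1 q.2 ∨ b2 q.1 q.2 then h p q.1 else h p q.1 / M q.1) else 0
    have Y0 : ∀ q, 0 ≤ Y q := fun q => by
      have := h0 p q.1
      simp only [Y]; split_ifs <;> positivity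
    refine ⟨fun j => Y j.unpair, (sm _).2 ((summable_prod_of_nonneg fun q => by positivity).2 ?_),
      fun j => Y0 _, fun k j => ?_⟩
    · have z : ∀ i, ∀ t ∉ I i, |Y (i, t)| ^ p = 0 := fun i t ht => by
        simp only [Y]; rw [if_neg ht, abs_zero, Real.zero_rpow p0]
      refine ⟨fun i => summable_of_ne_finset_zero (z i), Summable.of_nonneg_of_le
        (fun i => by positivity) (fun i => ?_)
        (((summable_nat_add_iff 2).2 (Real.summable_one_div_nat_pow.2 one_lt_two)).mul_left 5)⟩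
      have hM : (1 : ℝ) ≤ M i := by exact_mod_cast (by have := M_b i; omega : 1 ≤ M i)
      have hN : (0 : ℝ) < N i := by exact_mod_cast (by have := N_b i; omega : 0 < N i)
      have hB : 0 < M i ^ 2 := pow_pos (by have := M_b i; omega) 2
      have mono : ∀ c a b, a ≤ b → n a / c ≤ n b / c := fun c a b h =>
        Nat.div_le_div_right (hn.monotone h)
      have c1 := bad_card (m := M i) hB n (fun k => n (k + 1)) fun c k l e a b => by
        by_contra hne
        rcases Nat.lt_or_gt_of_ne hne with h | h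
        · have := mono c (k + 1) l h; have := mono c k (k + 1) k.le_succ; omega
        · have := mono c (l + 1) k h; have := mono c l (l + 1) l.le_succ; omega
      have c2 := bad_card (m := M i) hB (fun k => n (k + 1)) n fun c k l e a b => by
        by_contra hne
        rcases Nat.lt_or_gt_of_ne hne with h | h
        · have := mono c (k + 1) l h; have := mono c l (l + 1) l.le_succ; omega
        · have := mono c (l + 1) k h; have := mono c k (k + 1) k.le_succ; omega
      have d1 : (#{t ∈ I i | b1 i t} : ℝ) * M i ^ 2 ≤ M i * (2 * N i) := by exact_mod_cast c1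
      have d2 : (#{t ∈ I i | b2 i t} : ℝ) * M i ^ 2 ≤ M i * (2 * N i) := by exact_mod_cast c2
      rw [tsum_eq_sum (z i)]
      refine (sum_le_sum (g := fun t => (if b1 i t then (N i : ℝ)⁻¹ else 0) +
        (if b2 i t then (N i : ℝ)⁻¹ else 0) + (N i : ℝ)⁻¹ / M i) fun t ht => ?_).trans ?_
      · rw [abs_of_nonneg (Y0 _)]
        simp only [Y]
        rw [if_pos ht]
        have q1 : 0 ≤ (N i : ℝ)⁻¹ / M i := by positivity
        have q2 : 0 ≤ (N i : ℝ)⁻¹ := by positivity
        by_cases hb : b1 i t ∨ b2 i t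
        · rw [if_pos hb, hp h1.le]
          split_ifs <;> first | linarith | tauto
        · rw [if_neg hb, if_neg (by tauto), if_neg (by tauto), Real.div_rpow (h0 _ _) (by positivity),
            hp h1.le, zero_add, zero_add]
          gcongr
          exact Real.self_le_rpow_of_one_le hM h1.le
      · rw [sum_add_distrib, sum_add_distrib, ← sum_filter, ← sum_filter]
        simp only [sum_const, nsmul_eq_mul]
        have e : (#(I i) : ℝ) = N i := by simp only [I, Nat.card_Ico]; congr 1; omega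
        have e2 : (((i + 2 : ℕ) : ℝ)) ^ 2 = M i := by simp [M]
        rw [e, e2]
        field_simp
        nlinarith
    · simp only [Pi.sub_apply]
      generalize j.unpair = q
      simp only [X, Y]
      have hM : (0 : ℝ) < M q.1 := by exact_mod_cast (by have := M_b q.1; omega : 0 < M q.1)
      have := h0 p q.1
      by_cases hq : q.2 ∈ I q.1
      · simp only [if_pos hq]
        rw [← mul_sub, abs_mul, abs_of_nonneg (by positivity)]
        split_ifs with hb
        · rw [div_mul_eq_mul_div, div_le_iff₀ hM]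
          gcongr
          have a : (cnt (M q.1 ^ 2) (M q.1) (n k) q.2 : ℝ) ≤ M q.1 := by exact_mod_cast cnt_le ..
          have b : (cnt (M q.1 ^ 2) (M q.1) (n (k + 1)) q.2 : ℝ) ≤ M q.1 := by
            exact_mod_cast cnt_le ..
          rw [abs_le]; constructor <;> linarith [Nat.cast_nonneg (α := ℝ) (cnt (M q.1 ^ 2) (M q.1) (n k) q.2),
            Nat.cast_nonneg (α := ℝ) (cnt (M q.1 ^ 2) (M q.1) (n (k + 1)) q.2)]
        · refine mul_le_of_le_one_right (by positivity) ?_
          have a := (Nat.cast_le (α := ℝ)).2 (jump (fun h => hb (Or.inl h)) k)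
          have b := (Nat.cast_le (α := ℝ)).2 (jump (fun h => hb (Or.inr h)) k)
          push_cast at a b
          rw [abs_le]; constructor <;> linarith
      · simp [hq]
  · rintro l ⟨-, y, hy, -, hd⟩
    have hs := (summable_prod_of_nonneg fun q => by positivity).1
      ((sm fun q => y (Nat.pair q.1 q.2)).1 (by simpa using hy))
    obtain ⟨i, hi⟩ := (hs.2.tendsto_atTop_zero.eventually (gt_mem_nhds one_pos)).exists
    have hN : (0 : ℝ) < N i := by exact_mod_cast (by have := N_b i; omega : 0 < N i)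
    have hM : (0 : ℝ) < M i := by exact_mod_cast (by have := M_b i; omega : 0 < M i)
    refine hi.not_ge (le_trans ?_ ((hs.1 i).sum_le_tsum (I i) fun t _ => by positivity))
    refine le_trans ?_ (card_nsmul_le_sum _ _ (N i : ℝ)⁻¹ fun t ht => ?_)
    · have e : (#(I i) : ℝ) = N i := by simp only [I, Nat.card_Ico]; congr 1; omega
      rw [nsmul_eq_mul, e, mul_inv_cancel₀ hN.ne']
    · have := hd t (Nat.pair i t)
      simp only [Nat.unpair_pair, X, if_pos ht, cnt, filter_true, card_range,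
        div_mul_cancel₀ _ hM.ne'] at this
      rw [← hp h1.le]
      exact Real.rpow_le_rpow (h0 _ _) ((le_abs_self _).trans (this.trans (le_abs_self _)))
        (by linarith)

end Pool.Agent.Results.MP_55c50e_an.Counter
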